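import Pool.Agent.H626.SE.PEnergy

/-!
# MP_ceef50_co: the connected graphs with positive square energy `n - 1` are the trees
-/

set_option autoImplicit false

namespace Pool.Agent.Results.MP_ceef50_co.PlusEqualityIffTree

/-- The positive square energy of a graph: the sum of `λ ^ 2` over the positive eigenvalues `λ`
of the adjacency matrix, listed with multiplicity (`h` is the fact that this matrix is
symmetric). -/
noncomputable def sPlus {V : Type*} [Fintype V] [DecidableEq V] (G : SimpleGraph V)
    [DecidableRel G.Adj] (h : (G.adjMatrix ℝ).IsHermitian) : ℝ :=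
  ∑ i, if 0 < h.eigenvalues i then (h.eigenvalues i) ^ 2 else 0

/-- Q1 of MP_ceef50_co: a connected graph `G` on `n` vertices satisfies `s⁺(G) = n - 1` if and
only if it is a tree. -/
theorem result {V : Type*} [Fintype V] [DecidableEq V] (G : SimpleGraph V) [DecidableRel G.Adj]
    (hG : G.Connected) (h : (G.adjMatrix ℝ).IsHermitian) :
    sPlus G h = (Fintype.card V : ℝ) - 1 ↔ G.IsTree := by
  unfold sPlus
  rw [H626.SE.sq_plus]
  exact ⟨fun he => H626.SE.plus_eq G h hG he.le, fun hT => (H626.SE.tree_energy G h hT).1⟩

end Pool.Agent.Results.MP_ceef50_co.PlusEqualityIffTree
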